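import Pool.Agent.H905R3.DML.Assembly
import Pool.Agent.H905R3.DML.Core
import Pool.Agent.H905R3.DML.Block
import Pool.Agent.H905R3.DML.Table
import Pool.Agent.H905R3.DML.Count
import Pool.Agent.H905R3.DML.Bounds
import Pool.Agent.H905R3.DML.Density
import Pool.Agent.H905R3.DML.Product
import Pool.Agent.H905R3.DML.Primes
import Pool.Agent.H905R3.DML.Integral

/-!
# Dynamical Mordell–Lang for almost all products of low-dimensional polynomial maps
-/

set_option autoImplicit false

namespace Pool.Agent.Results.MP_295d38_ag.AlmostAllProducts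

open Pool.Agent.H905R3.DML

/-- **Dynamical Mordell-Lang for almost all products of polynomial self-maps of lines, planes and
one three-space.** Let `n 0, ..., n (r-1)` be `1`, `2` or `3`, with at most one `3`, let `L ⊂ ℂ` be
a finitely generated field, `M ≥ 1` and `ε > 0`. For `d ≥ d₀` and `H ≥ H₀(d)` the proportion, among
the integral vectors `v` with entries at most `H` in absolute value, of those for which the product
`F_0 × ... × F_(r-1)` of the polynomial self-maps `F_i` of `A^(n i)` (of degree at most `d` in each
variable) with coefficients `v` fails the Dynamical Mordell-Lang property for some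
point with coordinates in `L`, integral up to powers of `M`, and some closed `V`, is at most `ε`. -/
theorem result : ∀ (r : ℕ) (n : Fin r → ℕ), (∀ i, 1 ≤ n i ∧ n i ≤ 3) →
    (∀ i j, n i = 3 → n j = 3 → i = j) → ∀ (s : Finset ℂ) (M : ℕ), M ≠ 0 → ∀ ε : ℝ, 0 < ε →
    ∃ d₀ : ℕ, ∀ d : ℕ, d₀ ≤ d → ∃ H₀ : ℕ, ∀ H : ℕ, H₀ ≤ H →
      (Nat.card {v : Idx r n d → ℤ // (∀ i, |v i| ≤ (H : ℤ)) ∧
        ¬ DMLInt (Subfield.closure (s : Set ℂ)) M (psys v)} : ℝ) ≤
          ε * (2 * H + 1 : ℝ) ^ Fintype.card (Idx r n d) :=
  Assembly.main Core.taskCore Block.taskBlock Table.taskTable Count.taskCount Bounds.taskBounds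
    Density.taskDensity Product.taskProduct Primes.taskPrimes Integral.taskIntegral

end Pool.Agent.Results.MP_295d38_ag.AlmostAllProducts
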